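import Pool.Agent.H58.FL.TargetsB

/-!
# Board flc_modules, row GSC: orthonormal frames of the space of multiples of a polynomial (helper12)
-/

set_option autoImplicit false

open Topology

namespace Pool.Agent.H12.FL

open Pool.Agent.H58.FL Pool.Agent.H59 Pool.Agent.H48.FR

noncomputable section

open InnerProductSpace

/-- the multiples of the powers of the variable -/
def sv (j l : ℕ) (w : Fin (l + 1) → ℂ) (i : Fin (j + 1)) : EuclideanSpace ℂ (Fin (j + l + 1)) :=
  WithLp.toLp 2 (ml (fun k : Fin (j + 1) => if i = k then (1 : ℂ) else 0) w)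

/-- multiplication by a fixed polynomial is linear -/
def mlL (hMLP : T_MLP) (j l : ℕ) (w : Fin (l + 1) → ℂ) :
    (Fin (j + 1) → ℂ) →ₗ[ℂ] (Fin (j + l + 1) → ℂ) where
  toFun p := ml p w
  map_add' p p' := (hMLP j l).2.2.1 p p' w
  map_smul' c p := by
    have h := (hMLP j l).2.1 c 1 p w
    rw [one_smul, mul_one] at h
    exact h

theorem ml_sum (hMLP : T_MLP) (j l : ℕ) (w : Fin (l + 1) → ℂ) (p : Fin (j + 1) → ℂ) :
    (WithLp.toLp 2 (ml p w) : EuclideanSpace ℂ (Fin (j + l + 1))) = ∑ i, p i • sv j l w i := by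
  have h : ml p w = ∑ i, p i • ml (fun k : Fin (j + 1) => if i = k then (1 : ℂ) else 0) w :=
    LinearMap.pi_apply_eq_sum_univ (mlL hMLP j l w) p
  rw [h, WithLp.toLp_sum]
  rfl

theorem sv_li (hMLP : T_MLP) (j l : ℕ) (w : Fin (l + 1) → ℂ) (hw : w ≠ 0) :
    LinearIndependent ℂ (sv j l w) := by
  rw [Fintype.linearIndependent_iff]
  intro g hg
  rw [← ml_sum hMLP j l w g] at hg
  by_contra hne
  push Not at hne
  obtain ⟨i, hi⟩ := hne
  have hg0 : g ≠ 0 := by
    rintro rfl
    exact hi rfl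
  apply ml_ne hg0 hw
  have h2 := congrArg WithLp.ofLp hg
  exact h2

/-- the inner product -/
theorem hp_inner {m : ℕ} (x y : EuclideanSpace ℂ (Fin m)) :
    hp (WithLp.ofLp x) (WithLp.ofLp y) = inner ℂ y x := by
  rw [EuclideanSpace.inner_eq_star_dotProduct]
  rfl

theorem sv_cont (hMLP : T_MLP) (j l : ℕ) (i : Fin (j + 1)) :
    Continuous fun w : Fin (l + 1) → ℂ => sv j l w i := by
  unfold sv
  have h := (hMLP j l).2.2.2.1
  have h1 : Continuous fun w : Fin (l + 1) → ℂ =>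
      ((fun k : Fin (j + 1) => if i = k then (1 : ℂ) else 0), w) :=
    Continuous.prodMk continuous_const continuous_id
  have h2 : Continuous fun w : Fin (l + 1) → ℂ =>
      ml (fun k : Fin (j + 1) => if i = k then (1 : ℂ) else 0) w := by
    have h4 := Continuous.comp h h1
    exact h4
  have h3 : Continuous (WithLp.toLp 2 : (Fin (j + l + 1) → ℂ) →
      EuclideanSpace ℂ (Fin (j + l + 1))) := PiLp.continuous_toLp 2 _
  exact h3.comp h2

theorem gs_eq {ι E : Type} [LinearOrder ι] [LocallyFiniteOrderBot ι] [WellFoundedLT ι]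
    [NormedAddCommGroup E] [InnerProductSpace ℂ E] (f : ι → E) (i : ι) :
    gramSchmidt ℂ f i = f i - ∑ k ∈ Finset.Iio i,
      (inner ℂ (gramSchmidt ℂ f k) (f i) / ((‖gramSchmidt ℂ f k‖ : ℝ) : ℂ) ^ 2) •
        gramSchmidt ℂ f k := by
  rw [eq_sub_iff_add_eq]
  exact (gramSchmidt_def'' ℂ f i).symm

theorem gs_cont (hMLP : T_MLP) (j l : ℕ) (i : Fin (j + 1)) :
    ContinuousOn (fun w : Fin (l + 1) → ℂ => gramSchmidt ℂ (sv j l w) i) {w | w ≠ 0} := by
  induction i using WellFoundedLT.induction with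
  | ind i ih =>
    have h1 : ∀ w : Fin (l + 1) → ℂ, gramSchmidt ℂ (sv j l w) i = sv j l w i -
        ∑ k ∈ Finset.Iio i, (inner ℂ (gramSchmidt ℂ (sv j l w) k) (sv j l w i) /
          ((‖gramSchmidt ℂ (sv j l w) k‖ : ℝ) : ℂ) ^ 2) • gramSchmidt ℂ (sv j l w) k :=
      fun w => gs_eq _ _
    simp only [h1]
    apply (sv_cont hMLP j l i).continuousOn.sub
    apply continuousOn_finsetSum
    intro k hk
    rw [Finset.mem_Iio] at hk
    have hk' := ih k hk
    apply ContinuousOn.fun_smul _ hk'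
    apply ContinuousOn.div
    · exact hk'.inner (sv_cont hMLP j l i).continuousOn
    · exact (Complex.continuous_ofReal.comp_continuousOn hk'.norm).pow 2
    · intro w hw
      have h2 : gramSchmidt ℂ (sv j l w) k ≠ 0 := gramSchmidt_ne_zero k (sv_li hMLP j l w hw)
      have h3 : ‖gramSchmidt ℂ (sv j l w) k‖ ≠ 0 := norm_ne_zero_iff.mpr h2
      exact pow_ne_zero 2 (by exact_mod_cast h3)

theorem sv_smul (hMLP : T_MLP) (j l : ℕ) (c : ℂ) (w : Fin (l + 1) → ℂ) (i : Fin (j + 1)) :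
    sv j l (c • w) i = c • sv j l w i := by
  unfold sv
  have h := (hMLP j l).2.1 1 c (fun k : Fin (j + 1) => if i = k then (1 : ℂ) else 0) w
  rw [one_smul, one_mul] at h
  rw [h]
  rfl

theorem gs_smul (hMLP : T_MLP) (j l : ℕ) (c : ℂ) (hc : c ≠ 0) (w : Fin (l + 1) → ℂ)
    (i : Fin (j + 1)) :
    gramSchmidt ℂ (sv j l (c • w)) i = c • gramSchmidt ℂ (sv j l w) i := by
  induction i using WellFoundedLT.induction with
  | ind i ih =>
    rw [gs_eq, gs_eq (sv j l w), sv_smul hMLP, smul_sub, Finset.smul_sum]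
    congr 1
    apply Finset.sum_congr rfl
    intro k hk
    rw [Finset.mem_Iio] at hk
    rw [ih k hk, inner_smul_left, inner_smul_right, norm_smul, smul_smul, smul_smul]
    congr 1
    have hn : ((‖c‖ : ℝ) : ℂ) ^ 2 = (starRingEnd ℂ) c * c := by
      rw [mul_comm, Complex.mul_conj']
    have hcc : (starRingEnd ℂ) c ≠ 0 := by
      rwa [Ne, map_eq_zero]
    push_cast
    rw [mul_pow, hn]
    by_cases h0 : ((‖gramSchmidt ℂ (sv j l w) k‖ : ℝ) : ℂ) = 0
    · rw [h0]
      simp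
    · field_simp

theorem pf_GSC (hMLP : T_MLP) : T_GSC := by
  intro j l
  refine ⟨fun w i => WithLp.ofLp (gramSchmidtNormed ℂ (sv j l w) i), ?_, ?_, ?_, ?_⟩
  · intro i
    apply (PiLp.continuous_ofLp 2 _).comp_continuousOn
    unfold gramSchmidtNormed
    apply ContinuousOn.fun_smul _ (gs_cont hMLP j l i)
    apply ContinuousOn.inv₀
    · exact Complex.continuous_ofReal.comp_continuousOn (gs_cont hMLP j l i).norm
    · intro w hw
      have h2 : gramSchmidt ℂ (sv j l w) i ≠ 0 := gramSchmidt_ne_zero i (sv_li hMLP j l w hw)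
      have h3 : ‖gramSchmidt ℂ (sv j l w) i‖ ≠ 0 := norm_ne_zero_iff.mpr h2
      exact Complex.ofReal_ne_zero.mpr h3
  · intro w hw i i'
    rw [hp_inner]
    have h := (orthonormal_iff_ite.mp (gramSchmidtNormed_orthonormal (sv_li hMLP j l w hw))) i' i
    rw [h]
    simp only [eq_comm]
  · intro w hw c hc i
    have key : gramSchmidtNormed ℂ (sv j l (c • w)) i =
        (c / ((‖c‖ : ℝ) : ℂ)) • gramSchmidtNormed ℂ (sv j l w) i := ?_
    · exact congrArg WithLp.ofLp key
    unfold gramSchmidtNormed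
    rw [gs_smul hMLP j l c hc w i, norm_smul, smul_smul, smul_smul]
    congr 1
    have hc' : ((‖c‖ : ℝ) : ℂ) ≠ 0 := by exact_mod_cast (norm_ne_zero_iff.mpr hc)
    have h2 : gramSchmidt ℂ (sv j l w) i ≠ 0 := gramSchmidt_ne_zero i (sv_li hMLP j l w hw)
    have h3 : ((‖gramSchmidt ℂ (sv j l w) i‖ : ℝ) : ℂ) ≠ 0 := by
      exact_mod_cast (norm_ne_zero_iff.mpr h2)
    change (Complex.ofReal (‖c‖ * ‖gramSchmidt ℂ (sv j l w) i‖))⁻¹ * c =
      c / Complex.ofReal ‖c‖ * (Complex.ofReal ‖gramSchmidt ℂ (sv j l w) i‖)⁻¹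
    rw [Complex.ofReal_mul, mul_inv]
    ring
  · intro w hw p
    have h1 : (WithLp.toLp 2 (ml p w) : EuclideanSpace ℂ (Fin (j + l + 1))) ∈
        Submodule.span ℂ (Set.range (gramSchmidtNormed ℂ (sv j l w))) := by
      rw [span_gramSchmidtNormed_range, span_gramSchmidt, ml_sum hMLP j l w p]
      exact Submodule.sum_mem _ fun i _ => Submodule.smul_mem _ _
        (Submodule.subset_span (Set.mem_range_self i))
    rw [Submodule.mem_span_range_iff_exists_fun] at h1
    obtain ⟨x, hx⟩ := h1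
    refine ⟨x, ?_⟩
    have h2 := congrArg WithLp.ofLp hx
    rw [WithLp.ofLp_sum] at h2
    exact h2.symm

end

end Pool.Agent.H12.FL
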