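import Pool.Agent.H58.FL.TargetsD

/-!
# I4: the inequality of the wheels with four spokes (board fld_modules)
-/

set_option autoImplicit false

open Pool.Agent.H58.FL Pool.Agent.H59 Pool.Agent.H48.FR

namespace Pool.Agent.H12.FL

private theorem small {P a b c d x y z w : ℝ} (hP : 0 < P) (hs : a + b + c + d = 3 * P)
    (hg : P ≤ x + y + z + w) (ha : a < 3 * P / 8) (hb : b ≤ 19 * P / 20) (hc : c ≤ 19 * P / 20)
    (hd : d ≤ 19 * P / 20) (h1 : x + 2 / 5 * a < 73 * P / 120)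
    (h2 : 29 * P / 40 ≤ b → y + 2 / 5 * b ≤ 53 * P / 100)
    (h3 : 29 * P / 40 ≤ c → z + 2 / 5 * c ≤ 53 * P / 100)
    (h4 : 29 * P / 40 ≤ d → w + 2 / 5 * d ≤ 53 * P / 100) : False := by
  have e2 := h2 (by linarith)
  have e3 := h3 (by linarith)
  have e4 := h4 (by linarith)
  linarith

theorem pf_I4 (hP4A : T_P4A) (hP4B : T_P4B) (hP4C : T_P4C) (hNU3 : T_NU3) : T_I4 := by
  intro t φ γ ht4 ht hφ hs hγ hγs hcon
  obtain ⟨⟨hg2, hg1, hg1'⟩, -⟩ := hNU3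
  have hgr : 1 < gr := by linarith
  have hgr0 : 0 < gr := by linarith
  have hP := Real.pi_pos
  have tb : ∀ j, gr⁻¹ ≤ t j ∧ t j ≤ gr := by
    intro j
    obtain ⟨h0, h1, h2⟩ := ht j
    refine ⟨?_, ?_⟩
    · rw [← inv_pow] at h1
      exact le_of_sq_le_sq h1 h0.le
    · exact le_of_sq_le_sq h2 hgr0.le
  have hgi : 0 < gr⁻¹ := inv_pos.2 hgr0
  have Tb : ∀ j, (gr ^ 2)⁻¹ ≤ t j * t (j + 1) ∧ t j * t (j + 1) ≤ gr ^ 2 := by
    intro j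
    have a := tb j
    have b := tb (j + 1)
    refine ⟨?_, ?_⟩
    · rw [← inv_pow, sq]
      exact mul_le_mul a.1 b.1 hgi.le (by linarith)
    · rw [sq]
      exact mul_le_mul a.2 b.2 (by linarith) hgr0.le
  simp only [Finset.sum_range_succ, Finset.sum_range_zero, zero_add] at hs hγs
  have C : ∀ j, j < 4 → φ j + γ j < 7 * Real.pi / 6 ∧
      (gr⁻¹ ≤ t j * t (j + 1) → t j * t (j + 1) ≤ gr → φ j + γ j < 73 * Real.pi / 90) ∧
      (t j * t (j + 1) ≤ 1 → φ j < 7 * Real.pi / 12) := fun j hj =>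
    hP4C _ _ _ (Tb j).1 (Tb j).2 (hφ j hj).1 (hφ j hj).2 (hγ j).1 (hγ j).2 (hcon j hj)
  by_cases hA : ∀ j, j < 4 → 1 ≤ t j * t (j + 1)
  · have A1 : ∀ j, j < 4 → 3 * Real.pi / 8 ≤ φ j → γ j + 2 / 5 * φ j < 11 * Real.pi / 20 ∧
        (29 * Real.pi / 40 ≤ φ j → γ j + 2 / 5 * φ j ≤ 53 * Real.pi / 100) := fun j hj h =>
      hP4A _ _ _ (hA j hj) (Tb j).2 h (hφ j hj).2 (hγ j).1 (hγ j).2 (hcon j hj)
    have A1' : ∀ j, j < 4 → 29 * Real.pi / 40 ≤ φ j → γ j + 2 / 5 * φ j ≤ 53 * Real.pi / 100 :=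
      fun j hj h => (A1 j hj (by linarith)).2 h
    have A2 : ∀ j, j < 4 → φ j < 3 * Real.pi / 8 → γ j + 2 / 5 * φ j < 73 * Real.pi / 120 :=
      fun j hj h => hP4B _ _ _ (hA j hj) (Tb j).2 (hφ j hj).1 h.le (hγ j).1 (hγ j).2 (hcon j hj)
    have l0 : (0 : ℕ) < 4 := by norm_num
    have l1 : (1 : ℕ) < 4 := by norm_num
    have l2 : (2 : ℕ) < 4 := by norm_num
    have l3 : (3 : ℕ) < 4 := by norm_num
    rcases lt_or_ge (φ 0) (3 * Real.pi / 8) with h0 | h0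
    · exact small hP hs hγs h0 (hφ 1 l1).2 (hφ 2 l2).2 (hφ 3 l3).2 (A2 0 l0 h0) (A1' 1 l1)
        (A1' 2 l2) (A1' 3 l3)
    rcases lt_or_ge (φ 1) (3 * Real.pi / 8) with h1 | h1
    · exact small hP (by linarith : φ 1 + φ 0 + φ 2 + φ 3 = 3 * Real.pi)
        (by linarith : Real.pi ≤ γ 1 + γ 0 + γ 2 + γ 3) h1 (hφ 0 l0).2 (hφ 2 l2).2 (hφ 3 l3).2
        (A2 1 l1 h1) (A1' 0 l0) (A1' 2 l2) (A1' 3 l3)
    rcases lt_or_ge (φ 2) (3 * Real.pi / 8) with h2 | h2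
    · exact small hP (by linarith : φ 2 + φ 0 + φ 1 + φ 3 = 3 * Real.pi)
        (by linarith : Real.pi ≤ γ 2 + γ 0 + γ 1 + γ 3) h2 (hφ 0 l0).2 (hφ 1 l1).2 (hφ 3 l3).2
        (A2 2 l2 h2) (A1' 0 l0) (A1' 1 l1) (A1' 3 l3)
    rcases lt_or_ge (φ 3) (3 * Real.pi / 8) with h3 | h3
    · exact small hP (by linarith : φ 3 + φ 0 + φ 1 + φ 2 = 3 * Real.pi)
        (by linarith : Real.pi ≤ γ 3 + γ 0 + γ 1 + γ 2) h3 (hφ 0 l0).2 (hφ 1 l1).2 (hφ 2 l2).2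
        (A2 3 l3 h3) (A1' 0 l0) (A1' 1 l1) (A1' 2 l2)
    have e0 := (A1 0 l0 h0).1
    have e1 := (A1 1 l1 h1).1
    have e2 := (A1 2 l2 h2).1
    have e3 := (A1 3 l3 h3).1
    linarith
  · -- mixed edges
    have M : ∀ j, j < 4 → (t j < 1 ∧ 1 ≤ t (j + 1)) ∨ (1 ≤ t j ∧ t (j + 1) < 1) →
        φ j + γ j < 73 * Real.pi / 90 := by
      intro j hj h
      have a := tb j
      have b := tb (j + 1)
      have a0 := (ht j).1
      have b0 := (ht (j + 1)).1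
      refine (C j hj).2.1 ?_ ?_
      · rcases h with ⟨h1, h2⟩ | ⟨h1, h2⟩
        · nlinarith
        · nlinarith
      · rcases h with ⟨h1, h2⟩ | ⟨h1, h2⟩
        · nlinarith
        · nlinarith
    have Z : ∀ j, j < 4 → t j < 1 → t (j + 1) < 1 → φ j < 7 * Real.pi / 12 := by
      intro j hj h1 h2
      have a0 := (ht j).1
      have b0 := (ht (j + 1)).1
      refine (C j hj).2.2 ?_
      nlinarith
    have c0 := (C 0 (by norm_num)).1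
    have c1 := (C 1 (by norm_num)).1
    have c2 := (C 2 (by norm_num)).1
    have c3 := (C 3 (by norm_num)).1
    have m0 := M 0 (by norm_num)
    have m1 := M 1 (by norm_num)
    have m2 := M 2 (by norm_num)
    have m3 := M 3 (by norm_num)
    have z0 := Z 0 (by norm_num)
    have z1 := Z 1 (by norm_num)
    have z2 := Z 2 (by norm_num)
    have z3 := Z 3 (by norm_num)
    simp only [zero_add, Nat.reduceAdd, ht4] at m0 m1 m2 m3 z0 z1 z2 z3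
    rcases lt_or_ge (t 0) 1 with a0 | a0 <;> rcases lt_or_ge (t 1) 1 with a1 | a1 <;>
      rcases lt_or_ge (t 2) 1 with a2 | a2 <;> rcases lt_or_ge (t 3) 1 with a3 | a3
    · linarith [z0 a0 a1, z1 a1 a2, z2 a2 a3, z3 a3 a0]
    · linarith [m2 (Or.inl ⟨a2, a3⟩), m3 (Or.inr ⟨a3, a0⟩)]
    · linarith [m1 (Or.inl ⟨a1, a2⟩), m2 (Or.inr ⟨a2, a3⟩)]
    · linarith [m1 (Or.inl ⟨a1, a2⟩), m3 (Or.inr ⟨a3, a0⟩)]
    · linarith [m0 (Or.inl ⟨a0, a1⟩), m1 (Or.inr ⟨a1, a2⟩)]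
    · linarith [m0 (Or.inl ⟨a0, a1⟩), m1 (Or.inr ⟨a1, a2⟩)]
    · linarith [m0 (Or.inl ⟨a0, a1⟩), m2 (Or.inr ⟨a2, a3⟩)]
    · linarith [m0 (Or.inl ⟨a0, a1⟩), m3 (Or.inr ⟨a3, a0⟩)]
    · linarith [m0 (Or.inr ⟨a0, a1⟩), m3 (Or.inl ⟨a3, a0⟩)]
    · linarith [m0 (Or.inr ⟨a0, a1⟩), m2 (Or.inl ⟨a2, a3⟩)]
    · linarith [m0 (Or.inr ⟨a0, a1⟩), m1 (Or.inl ⟨a1, a2⟩)]
    · linarith [m0 (Or.inr ⟨a0, a1⟩), m1 (Or.inl ⟨a1, a2⟩)]
    · linarith [m1 (Or.inr ⟨a1, a2⟩), m3 (Or.inl ⟨a3, a0⟩)]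
    · linarith [m1 (Or.inr ⟨a1, a2⟩), m2 (Or.inl ⟨a2, a3⟩)]
    · linarith [m2 (Or.inr ⟨a2, a3⟩), m3 (Or.inl ⟨a3, a0⟩)]
    · refine hA fun j hj => ?_
      have hall : ∀ i, i ≤ 4 → 1 ≤ t i := by
        intro i hi
        interval_cases i
        · exact a0
        · exact a1
        · exact a2
        · exact a3
        · rw [ht4]; exact a0
      have u := hall j (by omega)
      have v := hall (j + 1) (by omega)
      nlinarith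

end Pool.Agent.H12.FL
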